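import Pool.Agent.Y718.CL.Op

/-! The good points of the double covers `w² = f(x_1, ..., x_n)`, `f` of degree at most four in each
variable, over a local field (helper70). -/

set_option autoImplicit false

open Filter Topology Pool.Agent.Y720.MZ Pool.Agent.Y718.CL

namespace Pool.Agent.R70.CY

section alg

variable {F : Type} [Field F] [CharZero F] {n : ℕ}

theorem degreeOf_map_eq {S : Type} [Field S] (φ : F →+* S) (f : MvPolynomial (Fin n) F)
    (j : Fin n) : (MvPolynomial.map φ f).degreeOf j = f.degreeOf j := by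
  rw [MvPolynomial.degreeOf_eq_sup, MvPolynomial.degreeOf_eq_sup,
    MvPolynomial.support_map_of_injective _ φ.injective]

theorem NK_map {S : Type} [Field S] [CharZero S] (φ : F →+* S) (f : MvPolynomial (Fin n) F) :
    MvPolynomial.map φ (NK f) = NK (MvPolynomial.map φ f) := by
  have hs : ∀ i : Fin n, (fun a => φ ((Pi.single i 1 : Fin n → F) a)) = Pi.single i 1 := by
    intro i
    funext a
    by_cases h : a = i
    · subst h; simp
    · rw [Pi.single_eq_of_ne h, Pi.single_eq_of_ne h, map_zero]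
  have hW : ∀ i j, MvPolynomial.map φ (Wf f i j) = Wf (MvPolynomial.map φ f) i j := by
    intro i j
    unfold Wf
    by_cases h : i = j
    · rw [if_pos h, if_pos h, map_one]
    · rw [if_neg h, if_neg h, map_sub, map_mul, map_mul, ← MvPolynomial.pderiv_map,
        ← MvPolynomial.pderiv_map, ← MvPolynomial.pderiv_map]
  simp only [NK, map_mul, map_prod, TqP_map, gk_map, hs, hW, degreeOf_map_eq]

/-- the good points over a field -/
def Gd (f : MvPolynomial (Fin n) F) (a : Fin n) : Set ((Fin n → F) × F) :=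
  {P | MvPolynomial.eval P.1 (NK f) ≠ 0 ∧ P.2 ≠ 0 ∧ IOt (th f (Pi.single a 1) P.1 P.2)}

end alg

section top

variable {F : Type} [NontriviallyNormedField F] [CharZero F] {n : ℕ}

theorem th_cont (f : MvPolynomial (Fin n) F) (e : Fin n → F) :
    Continuous fun P : (Fin n → F) × F => th f e P.1 P.2 := by
  refine Continuous.prodMk continuous_snd (continuous_pi fun j => ?_)
  have h : (fun P : (Fin n → F) × F => cq f P.1 e j) =
      fun P => MvPolynomial.eval P.1 (gk f e ((j : ℕ) + 1)) := by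
    funext P
    rw [gk_eval]
    rfl
  rw [h]
  exact (MvPolynomial.continuous_eval _).comp continuous_fst

/-- a point with `w ≠ 0` is a limit of points whose coordinates do not satisfy a given equation -/
theorem near_avoid [CompleteSpace F] {f q : MvPolynomial (Fin n) F} (hq : q ≠ 0) {x : Fin n → F}
    {w : F} (hX : w ^ 2 = MvPolynomial.eval x f) (hw : w ≠ 0) {δ : ℝ} (hδ : 0 < δ) :
    ∃ (z : Fin n → F) (y : F), y ^ 2 = MvPolynomial.eval z f ∧ y ≠ 0 ∧
      MvPolynomial.eval z q ≠ 0 ∧ (∀ a, ‖z a - x a‖ < δ) ∧ ‖y - w‖ < δ := by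
  -- the squares near `w`
  have h1 : HasStrictDerivAt (fun y : F => y ^ 2) (2 * w) w := by
    have := hasStrictDerivAt_pow 2 w
    simpa using this
  have h2 : map (fun y : F => y ^ 2) (𝓝 w) = 𝓝 (w ^ 2) :=
    h1.map_nhds_eq (mul_ne_zero two_ne_zero hw)
  have h3 : (fun y : F => y ^ 2) '' (Metric.ball w δ ∩ {y | y ≠ 0}) ∈ 𝓝 (w ^ 2) := by
    rw [← h2]
    exact image_mem_map (Filter.inter_mem (Metric.ball_mem_nhds w hδ)
      (isOpen_ne.mem_nhds hw))
  have h4 : (fun z : Fin n → F => MvPolynomial.eval z f) ⁻¹'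
      ((fun y : F => y ^ 2) '' (Metric.ball w δ ∩ {y | y ≠ 0})) ∩ Metric.ball x δ ∈ 𝓝 x := by
    refine Filter.inter_mem ?_ (Metric.ball_mem_nhds x hδ)
    refine (MvPolynomial.continuous_eval f).continuousAt ?_
    rw [← hX]
    exact h3
  -- the nonvanishing locus is dense
  by_contra hcon
  push_neg at hcon
  have h5 : ∀ z ∈ (fun z : Fin n → F => MvPolynomial.eval z f) ⁻¹'
      ((fun y : F => y ^ 2) '' (Metric.ball w δ ∩ {y | y ≠ 0})) ∩ Metric.ball x δ,
      MvPolynomial.eval z q = 0 := by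
    rintro z ⟨⟨y, ⟨hy1, hy2⟩, hy3⟩, hz⟩
    by_contra hqz
    rw [Metric.mem_ball, dist_eq_norm] at hy1
    have h6 := hcon z y hy3 hy2 hqz (fun a => by
      rw [Metric.mem_ball, dist_pi_lt_iff hδ] at hz
      have := hz a
      rwa [dist_eq_norm] at this)
    exact absurd hy1 (not_lt.2 h6)
  obtain ⟨r, hr, hrb⟩ := Metric.mem_nhds_iff.1 h4
  apply hq
  refine MvPolynomial.funext_set (fun a => Metric.ball (x a) r) (fun a =>
    infinite_of_mem_nhds (x a) (Metric.ball_mem_nhds _ hr)) fun z hz => ?_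
  rw [map_zero]
  refine h5 z (hrb ?_)
  rw [Metric.mem_ball, dist_pi_lt_iff hr]
  exact fun a => hz a (Set.mem_univ a)

theorem nk_id {F : Type} [Field F] [CharZero F] {n : ℕ} {f : MvPolynomial (Fin n) F}
    (hd : ∀ j, f.degreeOf j ≤ 4) {z : Fin n → F} (h : MvPolynomial.eval z (NK f) ≠ 0) :
    MvPolynomial.eval z f ≠ 0 ∧ (∀ j, Tq f (Pi.single j 1) z ≠ 0) ∧
      ∀ i j, i ≠ j → Tr f (Pi.single i 1) (Pi.single j 1) z := by
  have h1 := NK_spec hd (RingHom.id F) (z := z) (by rw [MvPolynomial.map_id]; exact h)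
  rw [MvPolynomial.map_id] at h1
  exact h1

/-- the good points are dense -/
theorem good_dense {p : ℕ} [Fact p.Prime] {n : ℕ} {f : MvPolynomial (Fin n) ℚ_[p]}
    (hd : ∀ j, f.degreeOf j ≤ 4) (hN : NK f ≠ 0) {a b : Fin n} (hab : b ≠ a) {x : Fin n → ℚ_[p]}
    {w : ℚ_[p]} (hX : w ^ 2 = MvPolynomial.eval x f) (hw : w ≠ 0) {δ : ℝ} (hδ : 0 < δ) :
    ∃ P ∈ Gd f a, P.2 ^ 2 = MvPolynomial.eval P.1 f ∧ (∀ i, ‖P.1 i - x i‖ < δ) ∧
      ‖P.2 - w‖ < δ := by
  letI : DecidableEq ℚ_[p] := Classical.decEq _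
  obtain ⟨z, y, h1, h2, h3, h4, h5⟩ := near_avoid hN hX hw (half_pos hδ)
  obtain ⟨-, -, hT⟩ := nk_id hd h3
  obtain ⟨⟨s₀, k1, k2, k3⟩, k4⟩ := hT b a hab
  -- a small parameter does not change the condition
  have hc : Continuous fun u : ℚ_[p] =>
      MvPolynomial.eval (fun i => z i + u * (Pi.single b 1 : Fin n → ℚ_[p]) i) (NK f) := by
    refine (MvPolynomial.continuous_eval _).comp (continuous_pi fun i => ?_)
    fun_prop
  have h0 : MvPolynomial.eval (fun i => z i + (0 : ℚ_[p]) * (Pi.single b 1 : Fin n → ℚ_[p]) i)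
      (NK f) ≠ 0 := by
    simpa only [zero_mul, add_zero] using h3
  obtain ⟨δ₁, hδ₁, hb⟩ := Metric.eventually_nhds_iff_ball.1 (hc.continuousAt.eventually_ne h0)
  obtain ⟨u, Z, g1, g2, g3, g4, g5⟩ := loc_near (f := f) (v := Pi.single b 1) (e := Pi.single a 1)
    (x₀ := z) (y₀ := y) h1 h2 k1 k2 k3 k4 (lt_min (half_pos hδ) hδ₁)
  refine ⟨(fun i => z i + u * (Pi.single b 1 : Fin n → ℚ_[p]) i, Z), ⟨?_, g2, g5⟩, g1,
    fun i => ?_, ?_⟩
  · refine hb u ?_
    rw [Metric.mem_ball, dist_zero_right]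
    exact g3.trans_le (min_le_right _ _)
  · have e1 : z i + u * (Pi.single b 1 : Fin n → ℚ_[p]) i - x i =
        (z i - x i) + u * (Pi.single b 1 : Fin n → ℚ_[p]) i := by ring
    change ‖z i + u * (Pi.single b 1 : Fin n → ℚ_[p]) i - x i‖ < δ
    rw [e1]
    have k1 := norm_add_le (z i - x i) (u * (Pi.single b 1 : Fin n → ℚ_[p]) i)
    have k2 : ‖u * (Pi.single b 1 : Fin n → ℚ_[p]) i‖ ≤ ‖u‖ := by
      by_cases hi : i = b
      · subst hi; simp
      · rw [Pi.single_eq_of_ne hi, mul_zero, norm_zero]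
        exact norm_nonneg _
    have k3 := h4 i
    have k4 := g3.trans_le (min_le_left _ _)
    linarith
  · have e1 : Z - w = (Z - y) + (y - w) := by ring
    change ‖Z - w‖ < δ
    rw [e1]
    have k1 := norm_add_le (Z - y) (y - w)
    have k4 := g4.trans_le (min_le_left _ _)
    linarith

/-- the good points form an open set -/
theorem gd_open {p : ℕ} [Fact p.Prime] {n : ℕ} (f : MvPolynomial (Fin n) ℚ_[p]) (a : Fin n) :
    IsOpen (Gd f a) := by
  rw [isOpen_iff_mem_nhds]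
  rintro P ⟨h1, h2, h3⟩
  have e1 : ∀ᶠ Q : (Fin n → ℚ_[p]) × ℚ_[p] in 𝓝 P, MvPolynomial.eval Q.1 (NK f) ≠ 0 :=
    ((MvPolynomial.continuous_eval (NK f)).comp continuous_fst).continuousAt.eventually_ne h1
  have e2 : ∀ᶠ Q : (Fin n → ℚ_[p]) × ℚ_[p] in 𝓝 P, Q.2 ≠ 0 :=
    continuous_snd.continuousAt.eventually_ne h2
  have e3 : ∀ᶠ Q : (Fin n → ℚ_[p]) × ℚ_[p] in 𝓝 P, IOt (th f (Pi.single a 1) Q.1 Q.2) :=
    (th_cont f (Pi.single a 1)).continuousAt.eventually (ev_IOt (θ₀ := th f (Pi.single a 1) P.1 P.2)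
      h2 h3)
  filter_upwards [e1, e2, e3] with Q k1 k2 k3
  exact ⟨k1, k2, k3⟩

end top

end Pool.Agent.R70.CY
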