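import Pool.Agent.R70.CY.Main

/-! The good sets exist (helper70). -/

set_option autoImplicit false

open Filter Topology Pool.Agent.Y720.MZ Pool.Agent.Y718.CL

namespace Pool.Agent.R70.CY

open MvPolynomial

/-- The polynomial `f(z + t e_j)` in the variable `t`, where `e_j` is the `j`-th unit vector. -/
noncomputable def line {F : Type} [Field F] {n : ℕ} (f : MvPolynomial (Fin n) F) (z : Fin n → F)
    (j : Fin n) : Polynomial F :=
  aeval (fun i => Polynomial.C (z i) + Polynomial.C (if i = j then 1 else 0) * Polynomial.X) f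

/-- `f` has degree `3` or `4` in each variable `x_j`, there is a line of direction `e_j` on which
`f` is separable and has this degree, and `∂_i ∂_j (log f) ≠ 0` for `i ≠ j` (so `f` is not the
product of a polynomial without `x_i` and a polynomial without `x_j`). -/
def NonDegenerate {F : Type} [Field F] {n : ℕ} (f : MvPolynomial (Fin n) F) : Prop :=
  (∀ j, 3 ≤ f.degreeOf j ∧ f.degreeOf j ≤ 4 ∧ ∃ z : Fin n → F,
    (line f z j).Separable ∧ (line f z j).natDegree = f.degreeOf j) ∧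
  ∀ i j, i ≠ j → f * pderiv i (pderiv j f) ≠ pderiv i f * pderiv j f

theorem line_eq {F : Type} [Field F] {n : ℕ} (f : MvPolynomial (Fin n) F) (z : Fin n → F)
    (j : Fin n) : line f z j = rst f z (Pi.single j 1) := by
  unfold line rst
  congr 2
  funext i
  rw [Pi.single_apply]

theorem NonDegenerate.nk {F : Type} [Field F] [CharZero F] {n : ℕ} {f : MvPolynomial (Fin n) F}
    (h : NonDegenerate f) (hn : 0 < n) : NK f ≠ 0 := by
  have : Nonempty (Fin n) := ⟨⟨0, hn⟩⟩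
  refine NK_ne (fun j => ?_) h.2
  obtain ⟨h1, h2, z, h3, h4⟩ := h.1 j
  rw [line_eq] at h3 h4
  exact ⟨h1, h2, z, h3, h4⟩

/-- density in terms of closures -/
theorem closure_p {p : ℕ} [Fact p.Prime] {n : ℕ} (hn : 2 ≤ n) {f : MvPolynomial (Fin n) ℚ_[p]}
    (h : NonDegenerate f) (a : Fin n) (P : (Fin n → ℚ_[p]) × ℚ_[p]) (hP : OnCover f P)
    (hw : P.2 ≠ 0) : P ∈ closure {Q | OnCover f Q ∧ Q ∈ Gd f a} := by
  rw [Metric.mem_closure_iff]
  intro δ hδ
  have : Nontrivial (Fin n) := Fin.nontrivial_iff_two_le.2 hn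
  obtain ⟨b, hb⟩ := exists_ne a
  obtain ⟨Q, h1, h2, h3, h4⟩ := good_dense (f := f) (fun j => (h.1 j).2.1) (h.nk (by omega))
    (a := a) (b := b) hb hP hw hδ
  refine ⟨Q, ⟨h2, h1⟩, ?_⟩
  rw [dist_comm, Prod.dist_eq, max_lt_iff, dist_pi_lt_iff hδ]
  exact ⟨fun i => by rw [dist_eq_norm]; exact h3 i, by rw [dist_eq_norm]; exact h4⟩

theorem closure_r {n : ℕ} (hn : 2 ≤ n) {f : MvPolynomial (Fin n) ℝ}
    (h : NonDegenerate f) (P : (Fin n → ℝ) × ℝ) (hP : OnCover f P) (hw : P.2 ≠ 0) :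
    P ∈ closure {Q | OnCover f Q ∧ eval Q.1 (NK f) ≠ 0} := by
  rw [Metric.mem_closure_iff]
  intro δ hδ
  obtain ⟨z, y, h1, h2, h3, h4, h5⟩ := near_avoid (h.nk (by omega)) hP hw hδ
  refine ⟨(z, y), ⟨h1, h3⟩, ?_⟩
  rw [dist_comm, Prod.dist_eq, max_lt_iff, dist_pi_lt_iff hδ]
  exact ⟨fun i => by rw [dist_eq_norm]; exact h4 i, by rw [dist_eq_norm]; exact h5⟩

theorem open_r_set {n : ℕ} (f : MvPolynomial (Fin n) ℝ) :
    IsOpen {Q : (Fin n → ℝ) × ℝ | eval Q.1 (NK f) ≠ 0} :=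
  isOpen_ne_fun ((MvPolynomial.continuous_eval (NK f)).comp continuous_fst) continuous_const

end Pool.Agent.R70.CY
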