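import Pool.Agent.R70.CY.Zar

/-! The local Zariski closures at the local points of the double covers (helper70). -/

set_option autoImplicit false

open Topology

namespace Pool.Agent.R70.CY

open MvPolynomial

section

variable {K : Type} [Field K] [CharZero K] {n : ℕ} {f : MvPolynomial (Fin n) K} {p : ℕ}
  [Fact p.Prime] {σ : K →+* ℚ_[p]}

omit [CharZero K] in
theorem ev_image (R : (Fin n → K) × K) (q : MvPolynomial (Option (Fin n)) K) :
    eval₂ σ (fun o : Option (Fin n) => o.elim (image σ R).2 (image σ R).1) q =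
      σ (eval (fun o : Option (Fin n) => o.elim R.2 R.1) q) := by
  have h : (fun o : Option (Fin n) => o.elim (image σ R).2 (image σ R).1) =
      fun o => σ ((fun o : Option (Fin n) => o.elim R.2 R.1) o) := by
    funext o
    cases o <;> rfl
  rw [h, ← eval₂_id, hom_eval₂, RingHom.comp_id]

omit [CharZero K] in
theorem cont_ev (σ : K →+* ℚ_[p]) (q : MvPolynomial (Option (Fin n)) K) :
    Continuous fun S : (Fin n → ℚ_[p]) × ℚ_[p] =>
      eval₂ σ (fun o : Option (Fin n) => o.elim S.2 S.1) q := by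
  simp only [← eval_map]
  refine (MvPolynomial.continuous_eval _).comp (continuous_pi fun o => ?_)
  cases o with
  | none => exact continuous_snd
  | some i => exact (continuous_apply i).comp continuous_fst

/-- Near a good point in the closure of the rational points, only the multiples of the equation
vanish at the rational points. -/
theorem local_main (hd : ∀ j, f.degreeOf j ≤ 4) (hf : ¬ IsSquare f) (a : Fin n)
    {T : (Fin n → ℚ_[p]) × ℚ_[p]} (hTU : T ∈ Gd (map σ f) a)
    (hcl : T ∈ closure {S | ∃ R, OnCover f R ∧ S = image σ R})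
    {q : MvPolynomial (Option (Fin n)) K} {N : Set ((Fin n → ℚ_[p]) × ℚ_[p])} (hN : N ∈ 𝓝 T)
    (h : ∀ R, OnCover f R → image σ R ∈ N →
      eval (fun o : Option (Fin n) => o.elim R.2 R.1) q = 0) : cov f ∣ q := by
  have hc1 : Continuous fun (S : (Fin n → ℚ_[p]) × ℚ_[p]) (_ : Unit) => S :=
    continuous_pi fun _ => continuous_id
  have hc2 : Continuous fun (S : Unit → (Fin n → ℚ_[p]) × ℚ_[p]) => S () := continuous_apply ()
  have hcl' : (fun _ : Unit => T) ∈ Closure f (p := fun _ : Unit => p) (fun _ => σ) := by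
    refine map_mem_closure hc1 hcl ?_
    rintro _ ⟨R, hR, rfl⟩
    exact ⟨R, hR, rfl⟩
  have hX : OnCover (map σ f) T := on_of_closure hcl' ()
  obtain ⟨U₀, hU₀, h0⟩ := open_p (ι := Unit) (p := fun _ => p) (fun _ _ _ => rfl) (fun _ => σ)
    hd a (T := fun _ => T) hcl' fun _ => hTU
  have hM : interior N ∩ (fun (S : (Fin n → ℚ_[p]) × ℚ_[p]) (_ : Unit) => S) ⁻¹' U₀ ∈ 𝓝 T :=
    Filter.inter_mem (interior_mem_nhds.2 hN) (hc1.continuousAt hU₀)
  refine dvd_of_near σ hf hX hTU.2.1 hM fun S hS hSX => ?_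
  have h1 : (fun _ : Unit => S) ∈ Closure f (p := fun _ : Unit => p) (fun _ => σ) :=
    h0 _ hS.2 fun _ => hSX
  have h2 : S ∈ closure {S | ∃ R, OnCover f R ∧ S = image σ R} := by
    refine map_mem_closure (f := fun (S : Unit → (Fin n → ℚ_[p]) × ℚ_[p]) => S ()) hc2 h1 ?_
    rintro _ ⟨R, hR, rfl⟩
    exact ⟨R, hR, rfl⟩
  have h3 : S ∈ closure (interior N ∩ {S | ∃ R, OnCover f R ∧ S = image σ R}) :=
    isOpen_interior.inter_closure ⟨hS.1, h2⟩
  have h4 : IsClosed {S : (Fin n → ℚ_[p]) × ℚ_[p] |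
      eval₂ σ (fun o : Option (Fin n) => o.elim S.2 S.1) q = 0} :=
    isClosed_eq (cont_ev σ q) continuous_const
  refine closure_minimal ?_ h4 h3
  rintro _ ⟨hN', R, hR, rfl⟩
  change eval₂ σ (fun o : Option (Fin n) => o.elim (image σ R).2 (image σ R).1) q = 0
  rw [ev_image, h R hR (interior_subset hN'), map_zero]

/-- The ideal of the local Zariski closure at the point `P` with coordinates in `L` of the set of
the `K`-points of the double cover `w² = f(x)`: the polynomials which vanish at all the `K`-points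
in some neighbourhood of `P`. The variable `none` is `w`, the variable `some i` is `x_i`. -/
def localIdeal {K L : Type} [Field K] [NontriviallyNormedField L] (σ : K →+* L) {n : ℕ}
    (f : MvPolynomial (Fin n) K) (P : (Fin n → L) × L) : Set (MvPolynomial (Option (Fin n)) K) :=
  {q | ∃ N ∈ nhds P, ∀ R : (Fin n → K) × K, OnCover f R → image σ R ∈ N →
    eval (fun o => o.elim R.2 R.1) q = 0}

theorem lz_main (hd : ∀ j, f.degreeOf j ≤ 4) (hf : ¬ IsSquare f)
    (P : (Fin n → ℚ_[p]) × ℚ_[p]) :
    localIdeal σ f P = {q | X none ^ 2 - rename some f ∣ q} ∨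
      ∃ N ∈ nhds P, ∀ R : (Fin n → K) × K, OnCover f R → image σ R ∈ N →
        image σ R ∉ ⋃ a, Gd (map σ f) a := by
  by_contra hcon
  rw [not_or] at hcon
  obtain ⟨h1, h2⟩ := hcon
  apply h1
  ext q
  constructor
  · rintro ⟨N, hN, hq⟩
    by_contra hnd
    apply h2
    refine ⟨interior N, interior_mem_nhds.2 hN, fun R hR hRN hRU => ?_⟩
    obtain ⟨a, hRU⟩ := Set.mem_iUnion.1 hRU
    apply hnd
    exact local_main hd hf a hRU (subset_closure ⟨R, hR, rfl⟩)
      (isOpen_interior.mem_nhds hRN) fun R' hR' hR'N => hq R' hR' (interior_subset hR'N)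
  · rintro ⟨r, rfl⟩
    refine ⟨Set.univ, Filter.univ_mem, fun R hR _ => ?_⟩
    rw [map_mul, map_sub, map_pow, eval_X, eval_rename]
    have : eval ((fun o : Option (Fin n) => o.elim R.2 R.1) ∘ some) f = eval R.1 f := rfl
    rw [this]
    change (R.2 ^ 2 - eval R.1 f) * _ = 0
    rw [show R.2 ^ 2 = _ from hR, sub_self, zero_mul]

end

end Pool.Agent.R70.CY
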