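import Pool.Agent.R70.CY.Base

/-! The closure of the rational points of the double covers `w² = f(x_1, ..., x_n)` at the good
points (helper70). -/

set_option autoImplicit false

open Filter Topology Pool.Agent.Y720.MZ Pool.Agent.Y718.CL

namespace Pool.Agent.R70.CY

open MvPolynomial

/-- The point `(x, w)` lies on the double cover `w² = f(x)`. -/
def OnCover {F : Type} [Field F] {n : ℕ} (f : MvPolynomial (Fin n) F) (P : (Fin n → F) × F) :
    Prop :=
  P.2 ^ 2 = eval P.1 f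

/-- The image of a point under an embedding of fields. -/
def image {K F : Type} [Field K] [Field F] (φ : K →+* F) {n : ℕ}
    (P : (Fin n → K) × K) : (Fin n → F) × F :=
  (fun j => φ (P.1 j), φ P.2)

/-- The closure of the set of the `K`-points of `w² = f(x)` in the product of the sets of the
`ℚ_[p i]`-points. -/
def Closure {K : Type} [Field K] {n : ℕ} (f : MvPolynomial (Fin n) K) {ι : Type} {p : ι → ℕ}
    [∀ i, Fact (p i).Prime] (σ : ∀ i, K →+* ℚ_[p i]) : Set (∀ i, (Fin n → ℚ_[p i]) × ℚ_[p i]) :=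
  closure {S | ∃ P, OnCover f P ∧ S = fun i => image (σ i) P}

/-- The closure of the set of the `K`-points of `w² = f(x)` in the product of the set of the real
points and of the sets of the `ℚ_[p i]`-points. -/
def ClosureReal {K : Type} [Field K] {n : ℕ} (f : MvPolynomial (Fin n) K) {ι : Type} {p : ι → ℕ}
    [∀ i, Fact (p i).Prime] (σ : ∀ i, K →+* ℚ_[p i]) (τ : K →+* ℝ) :
    Set (((Fin n → ℝ) × ℝ) × ∀ i, (Fin n → ℚ_[p i]) × ℚ_[p i]) :=
  closure {S | ∃ P, OnCover f P ∧ S = (image τ P, fun i => image (σ i) P)}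

section aux

variable {K : Type} [Field K] [CharZero K] {n : ℕ} {f : MvPolynomial (Fin n) K}

omit [CharZero K] in
lemma dist_image {F : Type} [NormedField F] (φ : K →+* F) (P : (Fin n → K) × K)
    (T : (Fin n → F) × F) {η : ℝ} (hη : 0 < η) : dist T (image φ P) < η ↔
      (∀ j, ‖φ (P.1 j) - T.1 j‖ < η) ∧ ‖φ P.2 - T.2‖ < η := by
  rw [dist_comm, Prod.dist_eq, max_lt_iff, dist_pi_lt_iff hη]
  simp only [dist_eq_norm, image]

variable {ι : Type} [Finite ι] {p : ι → ℕ} [hp : ∀ i, Fact (p i).Prime]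

omit [CharZero K] in
lemma fill_p (σ : ∀ i, K →+* ℚ_[p i]) {T : ∀ i, (Fin n → ℚ_[p i]) × ℚ_[p i]}
    (hcl : T ∈ Closure f σ) (hI : IntL σ f (fun i => (T i).1) (fun i => (T i).2)) :
    ∃ U ∈ nhds T, ∀ S ∈ U, (∀ i, OnCover (map (σ i) f) (S i)) → S ∈ Closure f σ := by
  have : Fintype ι := Fintype.ofFinite ι
  obtain ⟨ε, hε, hint⟩ := hI
  obtain ⟨_, ⟨P, hP, rfl⟩, h2⟩ := Metric.mem_closure_iff.1 hcl ε hε
  rw [dist_pi_lt_iff hε] at h2
  refine ⟨Metric.ball T ε, Metric.ball_mem_nhds T hε, fun S hS hSX => ?_⟩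
  rw [Metric.mem_ball, dist_pi_lt_iff hε] at hS
  rw [Closure, Metric.mem_closure_iff]
  intro η hη
  obtain ⟨z, w, k1, k2⟩ := hint P.1 P.2 hP (fun i => (dist_image (σ i) P (T i) hε).1 (h2 i))
    (fun i => (S i).1) (fun i => (S i).2) hSX (fun i => by
      have h3 := hS i
      rw [Prod.dist_eq, max_lt_iff, dist_pi_lt_iff hε] at h3
      simp only [dist_eq_norm] at h3
      exact h3) η hη
  refine ⟨_, ⟨(z, w), k1, rfl⟩, ?_⟩
  rw [dist_pi_lt_iff hη]
  exact fun i => (dist_image (σ i) (z, w) (S i) hη).2 (k2 i)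

omit [CharZero K] in
lemma fill_r (σ : ∀ i, K →+* ℚ_[p i]) (τ : K →+* ℝ)
    {T : ((Fin n → ℝ) × ℝ) × ∀ i, (Fin n → ℚ_[p i]) × ℚ_[p i]}
    (hcl : T ∈ ClosureReal f σ τ) {x : ∀ v : Option ι, Fin n → Lv p v} {y : ∀ v : Option ι, Lv p v}
    (hx0 : x none = T.1.1) (hy0 : y none = T.1.2) (hx : ∀ i, x (some i) = (T.2 i).1)
    (hy : ∀ i, y (some i) = (T.2 i).2)
    (hI : IntL (sv σ τ) f x y) :
    ∃ U ∈ nhds T, ∀ S ∈ U, OnCover (map τ f) S.1 → (∀ i, OnCover (map (σ i) f) (S.2 i)) →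
      S ∈ ClosureReal f σ τ := by
  have : Fintype ι := Fintype.ofFinite ι
  obtain ⟨ε, hε, hint⟩ := hI
  obtain ⟨_, ⟨P, hP, rfl⟩, h2⟩ := Metric.mem_closure_iff.1 hcl ε hε
  rw [Prod.dist_eq, max_lt_iff, dist_pi_lt_iff hε] at h2
  refine ⟨Metric.ball T ε, Metric.ball_mem_nhds T hε, fun S hS hSr hSX => ?_⟩
  rw [Metric.mem_ball, Prod.dist_eq, max_lt_iff, dist_pi_lt_iff hε] at hS
  rw [ClosureReal, Metric.mem_closure_iff]
  intro η hη
  let x' : ∀ v : Option ι, Fin n → Lv p v := fun v =>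
    match v with
    | none => S.1.1
    | some i => (S.2 i).1
  let y' : ∀ v : Option ι, Lv p v := fun v =>
    match v with
    | none => S.1.2
    | some i => (S.2 i).2
  obtain ⟨z, w, k1, k2⟩ := hint P.1 P.2 hP
    (by
      rintro (_ | i)
      · rw [hx0, hy0]
        exact (dist_image τ P T.1 hε).1 h2.1
      · rw [hx, hy]
        exact (dist_image (σ i) P (T.2 i) hε).1 (h2.2 i))
    x' y'
    (by
      rintro (_ | i)
      · exact hSr
      · exact hSX i)
    (by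
      rintro (_ | i)
      · have h3 := hS.1
        rw [Prod.dist_eq, max_lt_iff, dist_pi_lt_iff hε] at h3
        simp only [dist_eq_norm] at h3
        rw [hx0, hy0]
        exact h3
      · have h3 := hS.2 i
        rw [Prod.dist_eq, max_lt_iff, dist_pi_lt_iff hε] at h3
        simp only [dist_eq_norm] at h3
        rw [hx, hy]
        exact h3) η hη
  refine ⟨_, ⟨(z, w), k1, rfl⟩, ?_⟩
  rw [Prod.dist_eq, max_lt_iff, dist_pi_lt_iff hη]
  exact ⟨(dist_image τ (z, w) S.1 hη).2 (k2 none),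
    fun i => (dist_image (σ i) (z, w) (S.2 i) hη).2 (k2 (some i))⟩

end aux

section closed

variable {K : Type} [Field K] {n : ℕ} {f : MvPolynomial (Fin n) K} {ι : Type} {p : ι → ℕ}
  [∀ i, Fact (p i).Prime]

lemma onCover_image {F : Type} [Field F] (φ : K →+* F) {P : (Fin n → K) × K} (h : OnCover f P) :
    OnCover (map φ f) (image φ P) := by
  have k1 : eval (image φ P).1 (map φ f) = φ (eval P.1 f) := by
    rw [eval_map, image]
    exact (eval₂_comp_left φ (RingHom.id K) P.1 f).symm ▸ rfl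
  unfold OnCover at *
  rw [k1, ← h, map_pow]
  rfl

lemma isClosed_onCover {F : Type} [NormedField F] (g : MvPolynomial (Fin n) F) :
    IsClosed {P : (Fin n → F) × F | OnCover g P} :=
  isClosed_eq (by fun_prop) ((MvPolynomial.continuous_eval g).comp continuous_fst)

lemma on_of_closure {σ : ∀ i, K →+* ℚ_[p i]} {T : ∀ i, (Fin n → ℚ_[p i]) × ℚ_[p i]}
    (hT : T ∈ Closure f σ) (i : ι) : OnCover (map (σ i) f) (T i) := by
  have h1 : IsClosed {T : ∀ i, (Fin n → ℚ_[p i]) × ℚ_[p i] | OnCover (map (σ i) f) (T i)} :=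
    (isClosed_onCover (map (σ i) f)).preimage
      (f := fun T : ∀ i, (Fin n → ℚ_[p i]) × ℚ_[p i] => T i) (continuous_apply i)
  refine closure_minimal ?_ h1 hT
  rintro _ ⟨P, hP, rfl⟩
  exact onCover_image (σ i) hP

lemma on_of_closureR {σ : ∀ i, K →+* ℚ_[p i]} {τ : K →+* ℝ}
    {T : ((Fin n → ℝ) × ℝ) × ∀ i, (Fin n → ℚ_[p i]) × ℚ_[p i]}
    (hT : T ∈ ClosureReal f σ τ) : OnCover (map τ f) T.1 ∧ ∀ i, OnCover (map (σ i) f) (T.2 i) := by
  constructor
  · have h1 : IsClosed {T : ((Fin n → ℝ) × ℝ) × ∀ i, (Fin n → ℚ_[p i]) × ℚ_[p i] |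
        OnCover (map τ f) T.1} := (isClosed_onCover (map τ f)).preimage continuous_fst
    refine closure_minimal ?_ h1 hT
    rintro _ ⟨P, hP, rfl⟩
    exact onCover_image τ hP
  · intro i
    have h1 : IsClosed {T : ((Fin n → ℝ) × ℝ) × ∀ i, (Fin n → ℚ_[p i]) × ℚ_[p i] |
        OnCover (map (σ i) f) (T.2 i)} :=
      (isClosed_onCover (map (σ i) f)).preimage
        (f := fun T : ((Fin n → ℝ) × ℝ) × ∀ i, (Fin n → ℚ_[p i]) × ℚ_[p i] => T.2 i)
        ((continuous_apply i).comp continuous_snd)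
    refine closure_minimal ?_ h1 hT
    rintro _ ⟨P, hP, rfl⟩
    exact onCover_image (σ i) hP

end closed

section main

variable {K : Type} [Field K] [CharZero K] {n : ℕ} {f : MvPolynomial (Fin n) K}
  {ι : Type} [Finite ι] [Nonempty ι] {p : ι → ℕ} [hp : ∀ i, Fact (p i).Prime]

theorem open_p (hinj : Function.Injective p) (σ : ∀ i, K →+* ℚ_[p i])
    (hd : ∀ j, f.degreeOf j ≤ 4) (a : Fin n) {T : ∀ i, (Fin n → ℚ_[p i]) × ℚ_[p i]}
    (hcl : T ∈ Closure f σ) (hT : ∀ i, T i ∈ Gd (map (σ i) f) a) :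
    ∃ U ∈ nhds T, ∀ S ∈ U, (∀ i, OnCover (map (σ i) f) (S i)) → S ∈ Closure f σ := by
  refine fill_p σ hcl (cy_p hinj σ hd (fun i => on_of_closure hcl i) (fun i => ?_) (a := a)
    fun i => (hT i).2.2)
  rw [NK_map]
  exact (hT i).1

theorem open_r (hinj : Function.Injective p) (σ : ∀ i, K →+* ℚ_[p i]) (τ : K →+* ℝ)
    (hd : ∀ j, f.degreeOf j ≤ 4) (a : Fin n)
    {T : ((Fin n → ℝ) × ℝ) × ∀ i, (Fin n → ℚ_[p i]) × ℚ_[p i]}
    (hcl : T ∈ ClosureReal f σ τ) (h0 : eval T.1.1 (NK (map τ f)) ≠ 0)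
    (hT : ∀ i, T.2 i ∈ Gd (map (σ i) f) a) :
    ∃ U ∈ nhds T, ∀ S ∈ U, OnCover (map τ f) S.1 → (∀ i, OnCover (map (σ i) f) (S.2 i)) →
      S ∈ ClosureReal f σ τ := by
  let x : ∀ v : Option ι, Fin n → Lv p v := fun v =>
    match v with
    | none => T.1.1
    | some i => (T.2 i).1
  let y : ∀ v : Option ι, Lv p v := fun v =>
    match v with
    | none => T.1.2
    | some i => (T.2 i).2
  have hon := on_of_closureR hcl
  refine fill_r σ τ hcl (x := x) (y := y) rfl rfl (fun _ => rfl) (fun _ => rfl)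
    (cy_r hinj σ τ hd (x₀ := x) (y₀ := y) ?_ ?_ (a := a) fun i => (hT i).2.2)
  · rintro (_ | i)
    · exact hon.1
    · exact hon.2 i
  · rintro (_ | i)
    · rw [NK_map]
      exact h0
    · rw [NK_map]
      exact (hT i).1

end main

end Pool.Agent.R70.CY
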