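import Pool.Agent.R70.CY.Fin

/-! Polynomials which vanish at the local points close to a given one (helper70). -/

set_option autoImplicit false

open Topology

namespace Pool.Agent.R70.CY

open MvPolynomial

section alg

variable {K : Type} [Field K] {n : ℕ}

/-- the double cover as a polynomial in `w` and `x` -/
noncomputable def cov (f : MvPolynomial (Fin n) K) : MvPolynomial (Option (Fin n)) K :=
  X none ^ 2 - rename some f

/-- division by `w² - f` -/
theorem exists_ab (f : MvPolynomial (Fin n) K) (q : MvPolynomial (Option (Fin n)) K) :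
    ∃ (a b : MvPolynomial (Fin n) K) (h : MvPolynomial (Option (Fin n)) K),
      q = cov f * h + rename some a + rename some b * X none := by
  induction q using MvPolynomial.induction_on with
  | C r => exact ⟨C r, 0, 0, by simp⟩
  | add p q hp hq =>
    obtain ⟨a, b, h, rfl⟩ := hp
    obtain ⟨a', b', h', rfl⟩ := hq
    refine ⟨a + a', b + b', h + h', ?_⟩
    rw [map_add, map_add]
    ring
  | mul_X p i hp =>
    obtain ⟨a, b, h, rfl⟩ := hp
    cases i with
    | none =>
      refine ⟨b * f, a, h * X none + rename some b, ?_⟩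
      rw [map_mul, cov]
      ring
    | some i =>
      refine ⟨a * X i, b * X i, h * X (some i), ?_⟩
      rw [map_mul, map_mul, rename_X]
      ring

theorem sq_of {f a b : MvPolynomial (Fin n) K} (h : a ^ 2 = b ^ 2 * f) (hb : b ≠ 0) :
    IsSquare f := by
  have h1 : b ^ 2 ∣ a ^ 2 := ⟨f, h⟩
  have h2 : b ∣ a := (IsIntegrallyClosed.pow_dvd_pow_iff two_ne_zero).1 h1
  obtain ⟨c, rfl⟩ := h2
  refine ⟨c, ?_⟩
  have h3 : b ^ 2 * (c * c) = b ^ 2 * f := by rw [← h]; ring
  exact (mul_left_cancel₀ (pow_ne_zero 2 hb) h3).symm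

end alg

section top

variable {K : Type} [Field K] {F : Type} [NontriviallyNormedField F] [CharZero F] [CompleteSpace F]
  {n : ℕ}

/-- A polynomial which vanishes at all the points of the double cover over `F` close to a given one
with `w ≠ 0` is divisible by `w² - f`. -/
theorem dvd_of_near (σ : K →+* F) {f : MvPolynomial (Fin n) K} (hf : ¬ IsSquare f)
    {P : (Fin n → F) × F} (hP : OnCover (map σ f) P) (hw : P.2 ≠ 0)
    {q : MvPolynomial (Option (Fin n)) K} {N : Set ((Fin n → F) × F)} (hN : N ∈ 𝓝 P)
    (h : ∀ Q ∈ N, OnCover (map σ f) Q → eval₂ σ (fun o => o.elim Q.2 Q.1) q = 0) :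
    cov f ∣ q := by
  obtain ⟨a, b, r, rfl⟩ := exists_ab f q
  -- the values at the points of the cover
  have hv : ∀ Q : (Fin n → F) × F, OnCover (map σ f) Q →
      eval₂ σ (fun o => o.elim Q.2 Q.1) (cov f * r + rename some a + rename some b * X none) =
        eval Q.1 (map σ a) + eval Q.1 (map σ b) * Q.2 := by
    intro Q hQ
    have e1 : ∀ c : MvPolynomial (Fin n) K,
        eval₂ σ (fun o : Option (Fin n) => o.elim Q.2 Q.1) (rename some c) =
          eval Q.1 (map σ c) := by
      intro c
      rw [eval₂_rename, eval_map]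
      rfl
    have e2 : eval₂ σ (fun o : Option (Fin n) => o.elim Q.2 Q.1) (cov f) = 0 := by
      rw [cov, eval₂_sub, eval₂_pow, eval₂_X, e1]
      change Q.2 ^ 2 - _ = 0
      rw [show Q.2 ^ 2 = _ from hQ, sub_self]
    rw [eval₂_add, eval₂_add, eval₂_mul, eval₂_mul, e1, e1, e2, eval₂_X, zero_mul, zero_add]
    rfl
  have hab : a ^ 2 = b ^ 2 * f := by
    by_contra hne
    have hq : map σ (a ^ 2 - b ^ 2 * f) ≠ 0 := by
      intro h0
      apply hne
      have h1 : a ^ 2 - b ^ 2 * f = 0 := map_injective σ σ.injective (by rw [h0, map_zero])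
      exact sub_eq_zero.1 h1
    obtain ⟨δ, hδ, hb⟩ := Metric.mem_nhds_iff.1 hN
    obtain ⟨z, y, h1, h2, h3, h4, h5⟩ := near_avoid hq hP hw hδ
    have h6 := h (z, y) (hb (by
      rw [Metric.mem_ball, Prod.dist_eq, max_lt_iff, dist_pi_lt_iff hδ]
      exact ⟨fun i => by rw [dist_eq_norm]; exact h4 i, by rw [dist_eq_norm]; exact h5⟩)) h1
    rw [hv (z, y) h1] at h6
    apply h3
    rw [map_sub, map_mul, map_pow, map_pow, map_sub, map_mul, map_pow, map_pow]
    have h7 : eval z (map σ a) = - (eval z (map σ b) * y) := by linear_combination h6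
    rw [h7, ← show y ^ 2 = _ from h1]
    ring
  have hb : b = 0 := by
    by_contra hb
    exact hf (sq_of hab hb)
  subst hb
  have ha : a = 0 := by
    have : a ^ 2 = 0 := by rw [hab]; ring
    exact pow_eq_zero_iff two_ne_zero |>.1 this
  subst ha
  rw [map_zero, add_zero, zero_mul, add_zero]
  exact dvd_mul_right _ _

end top

end Pool.Agent.R70.CY
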